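import Pool.Agent.Y562.NN.FF3

/-!
# Function fields which are NIP, `NIP_n` or NTP2

Let `F` be a field which is finitely generated over a subfield `k` (no assumption on `k`; it need
not be definable or relatively algebraically closed in `F`) and not algebraic over it. If `F` is
NIP, or `NIP_n` for some `n`, or NTP2, or only a residue field of a field with this property, then
the transcendence degree is one and the separable closure of `k` has finite degree over `k`, that
is (Artin and Schreier), `k` is separably closed or real closed.

The proof uses the incomparable discrete valuations of `F` and the starting result `UnramifiedNorms`;
in transcendence degree at least two their residue fields are function fields, and in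
transcendence degree one the residue degrees are bounded by `[F : k(x)]`, so that a separable
extension of `k` of larger degree does not split completely in any of the residue fields.
`NIPField`, `NIPnField`, `NTP2Field` are defined in `Pool.Agent.W882.Nip3.Defs`.
-/

set_option autoImplicit false

namespace Pool.Agent.Results.MP_3554b5_lc.FunctionFields

open Pool.Agent.W882.Nip3

/-- Let `K` be a field which is NIP (the hypothesis of `S14569`), or `NIP_n` for some `n`, or
`NTP2`. Let `K'` be a field elementarily equivalent to `K` (for example `K' = K`), `O` a valuation
ring of `K'` (for example `O = K'`), `F` its residue field, and `k` a field such that `F` is a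
finitely generated field extension of `k`. Then `F` is a finite extension of `k`, or the
transcendence degree of `F` over `k` is one and the separable closure of `k` is a finite extension
of `k` (so that `k` is separably closed or real closed). -/
theorem result (K : Type) [Field K] [FirstOrder.Ring.CompatibleRing K]
    (hK : NIPField K ∨ (∃ n, NIPnField n K) ∨ NTP2Field K)
    (K' : Type) [Field K'] [FirstOrder.Ring.CompatibleRing K']
    (hKK' : FirstOrder.Language.ring.ElementarilyEquivalent K K')
    (O : ValuationSubring K') (F : Type) [Field F] (π : O →+* F) (hπ : Function.Surjective π)
    (k : Type) [Field k] [Algebra k F] (hF : (⊤ : IntermediateField k F).FG) :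
    FiniteDimensional k F ∨
      (Algebra.trdeg k F = 1 ∧ FiniteDimensional k (SeparableClosure k)) := by
  refine Pool.Agent.Y562.NN.function_field F (fun D => ?_) k hF
  obtain ⟨N, hN⟩ := (UnramifiedNorms.result K hK).1 D
  exact ⟨N, Pool.Agent.Y562.NN.tame_of_residue D N K' (hN K' hKK').1 O F π hπ⟩

end Pool.Agent.Results.MP_3554b5_lc.FunctionFields
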