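import Pool.Agent.Y562.NN.Main

/-!
# Noetherian domains whose fraction field is NIP, `NIP_n` or NTP2 have dimension at most one

Let `A` be a Noetherian domain of Krull dimension at least two and `K` a finite extension of the
field of fractions of `A` (for example the fraction field of `ℂ[[x, y]]`, of `ℤ_p[[t]]` or of any
local ring of dimension at least two of a Noetherian integral scheme). Then the pure field `K` is
not NIP, not `NIP_n` for any `n` and not `NTP2`. The same holds for all fields which have a place
with such a residue field. In dimension one there are few maximal ideals whose residue fields are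
not closed under separable extensions of small degree.

The proof constructs incomparable discrete valuations of `K` whose residue fields have a separable
extension of small degree, by the method of Krull and Akizuki (`Pool.Agent.Y562.NN.KA`,
`Pool.Agent.Y562.NN.KA2`, `Pool.Agent.Y562.NN.DVR`), and uses the starting result `UnramifiedNorms`.
`NIPField`, `NIPnField`, `NTP2Field` are defined in `Pool.Agent.W882.Nip3.Defs`.
-/

set_option autoImplicit false

namespace Pool.Agent.Results.MP_3554b5_lc.NoetherianDomains

open Pool.Agent.W882.Nip3

/-- The field `κ` has a separable extension of degree at least two and at most `D`. -/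
def HasExtension (κ : Type) [Field κ] (D : ℕ) : Prop :=
  ∃ d, 2 ≤ d ∧ d ≤ D ∧ ∃ (L : Type) (_ : Field L) (_ : Algebra κ L),
    Algebra.IsSeparable κ L ∧ Module.finrank κ L = d

/-- Let `K` be a field which is NIP (the hypothesis of `S14569`), or `NIP_n` for some `n`, or
`NTP2`. For every `D` there is a number `N`, depending only on `D` and the theory of `K`, with the
following property. Let `K'` be a field elementarily equivalent to `K` (for example `K' = K`), `O` a
valuation ring of `K'` (for example `O = K'`), `k` its residue field, and let `A` be a Noetherian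
domain such that `k` is a finite extension of the field of fractions of `A`. Then `A` has dimension
at most one, and it has fewer than `N` nonzero maximal ideals `𝔪` for which every finite extension
of the field `A ⧸ 𝔪` has a separable extension of degree at least two and at most `D`. -/
theorem result (K : Type) [Field K] [FirstOrder.Ring.CompatibleRing K]
    (hK : NIPField K ∨ (∃ n, NIPnField n K) ∨ NTP2Field K) (D : ℕ) :
    ∃ N : ℕ, ∀ (K' : Type) [Field K'] [FirstOrder.Ring.CompatibleRing K'],
      FirstOrder.Language.ring.ElementarilyEquivalent K K' →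
      ∀ (O : ValuationSubring K') (k : Type) [Field k] (π : O →+* k), Function.Surjective π →
      ∀ (A : Type) [CommRing A] [IsDomain A] [IsNoetherianRing A] [Algebra (FractionRing A) k]
        [FiniteDimensional (FractionRing A) k],
        ringKrullDim A ≤ 1 ∧
        {𝔪 : Ideal A | 𝔪.IsMaximal ∧ 𝔪 ≠ ⊥ ∧ ∀ (κ : Type) [Field κ] (f : A ⧸ 𝔪 →+* κ),
          f.Finite → HasExtension κ D}.encard < N := by
  obtain ⟨N, hN⟩ := (UnramifiedNorms.result K hK).1 D
  refine ⟨N, fun K' _ _ hKK' O k _ π hπ A _ _ _ _ _ => ?_⟩
  have hdim : ringKrullDim A ≤ 1 := by
    obtain ⟨N, hN⟩ := (UnramifiedNorms.result K hK).1 3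
    exact Pool.Agent.Y562.NN.dim_le_one N k
      (Pool.Agent.Y562.NN.tame_of_residue 3 N K' (hN K' hKK').1 O k π hπ) A
  refine ⟨hdim, ?_⟩
  by_contra hcon
  rw [not_lt] at hcon
  obtain ⟨P, hP1, hP2⟩ := Pool.Agent.Y562.NN.exists_seq _ N hcon
  have hp : ∀ i, (P i).IsPrime := fun i => (hP2 i).1.isPrime
  rw [ringKrullDim_le_iff_height_le] at hdim
  refine Pool.Agent.Y562.NN.main_step D N k
    (Pool.Agent.Y562.NN.tame_of_residue D N K' (hN K' hKK').1 O k π hπ) A P hP1 hp
    (fun i => (hP2 i).2.1) (fun i => ?_) (fun i => ?_)
  · have h2 := hdim (hp i)
    exact_mod_cast h2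
  · have hm : (P i).IsMaximal := (hP2 i).1
    exact Pool.Agent.Y562.NN.hasExtAll_of_quotient (P i) D (fun κ _ f hf => (hP2 i).2.2 κ f hf)

end Pool.Agent.Results.MP_3554b5_lc.NoetherianDomains
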